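import Pool.Agent.H336R2.V.Main

/-! An unconditional lower bound for the variance of primes in the residue classes modulo `Q`, for
every modulus `Q` and every `X ≥ Q`. -/

open Finset

namespace Pool.Agent.Results.MP_5d318d_nt.EveryModulusLower

/-- The variance `G(X,Q)` of primes in the reduced residue classes modulo `Q`. -/
noncomputable def G (X : ℝ) (Q : ℕ) : ℝ :=
  ∑ A ∈ (range Q).filter (fun A => Nat.Coprime A Q),
    ((∑ n ∈ (Icc 1 ⌊X⌋₊).filter (fun n => n % Q = A), ArithmeticFunction.vonMangoldt n)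
      - X / (Nat.totient Q : ℝ)) ^ 2

theorem result : ∀ ε : ℝ, 0 < ε → ∃ X₀ : ℝ, ∀ X : ℝ, X₀ ≤ X → ∀ Q : ℕ, 1 ≤ Q → (Q : ℝ) ≤ X →
    X * (3 / 2 * Real.log Q - Real.log X - ε * Real.log X) ≤ G X Q := by
  intro ε hε
  obtain ⟨X₀, h⟩ := H336V.main ε hε
  refine ⟨X₀, fun X hX Q hQ hQX => (h X hX Q hQ hQX).trans (le_of_eq ?_)⟩
  unfold H336V.GV G
  refine sum_congr rfl fun A hA => ?_
  rw [mem_filter, mem_range] at hA
  unfold H336V.psiA
  have h1 : (Icc 1 ⌊X⌋₊).filter (fun n => n ≡ A [MOD Q]) =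
      (Icc 1 ⌊X⌋₊).filter (fun n => n % Q = A) := by
    refine filter_congr fun n _ => ?_
    rw [Nat.ModEq, Nat.mod_eq_of_lt hA.1]
  rw [h1]

end Pool.Agent.Results.MP_5d318d_nt.EveryModulusLower
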